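import Pool.Agent.H76.QE.Targets

/-!
# FAQ (board qd_modules): a right side with few satisfied equations
-/

set_option autoImplicit false

namespace Pool.Agent.H25.QD

open Finset Pool.Agent.H76.QE
open Pool.Agent.H1.LP (supp ip comb kk S_DISP S_COL S_SMALL)
open H43.PS (PosDeg Low av)
open Pool.Agent.H73.OX (ch)

theorem pf_FAQ : T_FAQ := by
  classical
  intro p R N hp A hlt
  have : NeZero p := ⟨hp.out.ne_zero⟩
  by_contra hcon
  have h1 : ∀ b : Fin (R + R) → ZMod p, ∃ (z : Fin N → ZMod p) (S : Finset (Fin R)),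
      S.card = 3 * N ∧ ∀ i ∈ S, ¬ Bad A b i z := by
    intro b
    by_contra hb
    apply hcon
    refine ⟨b, fun z B hB => ?_⟩
    by_contra hlt2
    have hc : 3 * N ≤ (Bᶜ).card := by
      rw [Finset.card_compl, Fintype.card_fin]
      omega
    obtain ⟨S, hS, hSc⟩ := Finset.exists_subset_card_eq hc
    apply hb
    refine ⟨z, S, hSc, fun i hi hbad => ?_⟩
    have := hS hi
    rw [Finset.mem_compl] at this
    exact this ((hB i).2 hbad)
  choose z S hS hgood using h1
  let eq (b : Fin (R + R) → ZMod p) : {x // x ∈ S b} ≃ Fin (3 * N) :=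
    (S b).equivFinOfCardEq (hS b)
  let r (b : Fin (R + R) → ZMod p) (e : Fin (3 * N) → ZMod p) : Fin (R + R) → ZMod p :=
    Fin.addCases (fun i => b (Fin.castAdd R i))
      (fun i => if h : i ∈ S b then e (eq b ⟨i, h⟩) else b (Fin.natAdd R i))
  have hrc : ∀ b e i, r b e (Fin.castAdd R i) = b (Fin.castAdd R i) := by
    intro b e i
    simp only [r, Fin.addCases_left]
  have hrn : ∀ b e i, r b e (Fin.natAdd R i) =
      if h : i ∈ S b then e (eq b ⟨i, h⟩) else b (Fin.natAdd R i) := by
    intro b e i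
    simp only [r, Fin.addCases_right]
  have hval : ∀ b, ∀ i ∈ S b, b (Fin.natAdd R i) = ip (A (Fin.natAdd R i)) (z b) -
      (ip (A (Fin.castAdd R i)) (z b) - b (Fin.castAdd R i)) ^ 2 := by
    intro b i hi
    have h := hgood b i hi
    unfold Bad at h
    push Not at h
    rw [← h]
    ring
  let F : (Fin (R + R) → ZMod p) × (Fin (3 * N) → ZMod p) →
      (Fin N → ZMod p) × (Finset (Fin R) × (Fin (R + R) → ZMod p)) :=
    fun x => (z x.1, S x.1, r x.1 x.2)
  have hF : Function.Injective F := by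
    rintro ⟨b, e⟩ ⟨b', e'⟩ hbe
    simp only [F, Prod.mk.injEq] at hbe
    obtain ⟨hz, hSS, hr⟩ := hbe
    have hbb : b = b' := by
      have hcast : ∀ i, b (Fin.castAdd R i) = b' (Fin.castAdd R i) := by
        intro i
        have := congrFun hr (Fin.castAdd R i)
        rwa [hrc, hrc] at this
      funext j
      refine Fin.addCases (fun i => hcast i) (fun i => ?_) j
      by_cases hi : i ∈ S b
      · have hi' : i ∈ S b' := hSS ▸ hi
        rw [hval b i hi, hval b' i hi', hz, hcast i]
      · have hi' : i ∉ S b' := hSS ▸ hi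
        have := congrFun hr (Fin.natAdd R i)
        rw [hrn, hrn, dif_neg hi, dif_neg hi'] at this
        exact this
    subst hbb
    have hee : e = e' := by
      funext k
      have hi : ((eq b).symm k : Fin R) ∈ S b := ((eq b).symm k).2
      have := congrFun hr (Fin.natAdd R ((eq b).symm k : Fin R))
      rw [hrn, hrn, dif_pos hi, dif_pos hi] at this
      simpa using this
    rw [hee]
  have hcard := Fintype.card_le_of_injective F hF
  simp only [Fintype.card_prod, Fintype.card_fun, Fintype.card_fin, ZMod.card,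
    Fintype.card_finset] at hcard
  have hp1 : 0 < p := hp.out.pos
  have hpos : 0 < p ^ (R + R) := pow_pos hp1 _
  have hposN : 0 < p ^ N := pow_pos hp1 _
  have h2 : p ^ (3 * N) ≤ p ^ N * 2 ^ R := by
    have : p ^ (R + R) * p ^ (3 * N) ≤ p ^ (R + R) * (p ^ N * 2 ^ R) := by
      calc p ^ (R + R) * p ^ (3 * N) ≤ p ^ N * (2 ^ R * p ^ (R + R)) := hcard
        _ = p ^ (R + R) * (p ^ N * 2 ^ R) := by ring
    exact Nat.le_of_mul_le_mul_left this hpos
  have h3 : p ^ (2 * N) ≤ 2 ^ R := by
    have h4 : p ^ N * p ^ (2 * N) ≤ p ^ N * 2 ^ R := by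
      calc p ^ N * p ^ (2 * N) = p ^ (3 * N) := by rw [← pow_add]; congr 1; ring
        _ ≤ _ := h2
    exact Nat.le_of_mul_le_mul_left h4 hposN
  omega

end Pool.Agent.H25.QD
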