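import Pool.Agent.H76.QE.Targets

/-!
# SYQ (board qd_modules): the system with all its properties
-/

set_option autoImplicit false

namespace Pool.Agent.H25.QD

open Finset Pool.Agent.H76.QE
open Pool.Agent.H1.LP (supp ip comb kk S_DISP S_COL S_SMALL)
open H43.PS (PosDeg Low av)
open Pool.Agent.H73.OX (ch)

theorem ip_congr {p N : ℕ} {l : Fin N → ZMod p} {T : Finset (Fin N)} (h : supp l ⊆ T)
    {z z' : Fin N → ZMod p} (hz : ∀ j ∈ T, z j = z' j) : ip l z = ip l z' := by
  unfold ip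
  refine Finset.sum_congr rfl fun j _ => ?_
  by_cases hj : l j = 0
  · rw [hj]; simp
  · rw [hz j (h (by unfold supp; simp [hj]))]

theorem pf_SYQ (hF : T_CFQ) (hD : T_DEL) (hA : T_FAQ) (hR : T_STR) : T_SYQ := by
  intro E w u p hp hE hw hu hp5
  have hE3 : 1 ≤ E ^ 3 := Nat.one_le_pow _ _ hE
  have hE2 : E ≤ E ^ 3 := Nat.le_self_pow (by norm_num) E
  have hw1 : 1 ≤ w := by omega
  have hw2 : 1 ≤ w ^ 2 := Nat.one_le_pow _ _ hw1
  have hkk : 1 ≤ kk w := by
    unfold kk
    exact Nat.one_le_iff_ne_zero.2 (by positivity)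
  have hu1 : 1 ≤ u := by omega
  have huw : u ≤ w * u := Nat.le_mul_of_pos_left u hw1
  have hwu1 : 1 ≤ w * u := le_trans hu1 huw
  obtain ⟨T0, A0, hT0, hA0, hW0⟩ := hF E w u p hE hw (by omega) hp5
  have hz0 : 1024 * E * u ≤ w * u := by
    apply Nat.mul_le_mul_right
    omega
  have h2t : 2 * u ≤ 256 * E * u := by
    apply Nat.mul_le_mul_right
    omega
  have hww : w * u ≤ w * (w * u) := Nat.le_mul_of_pos_left _ hw1
  have hRM : w * (w * u) + w * (w * u) + 2 * u ≤ 4 * w * (w * u) := by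
    have : 4 * w * (w * u) = 4 * (w * (w * u)) := by ring
    rw [this]
    omega
  obtain ⟨T, A, hT, hTA, hW, hI⟩ := hD p (4 * w * (w * u)) (w * u) (kk w) (w * (w * u)) u
    (256 * E * u) (1024 * E * u) T0 A0 hT0 hA0 hW0 hz0 h2t (by omega) hRM
  have hpw : 2 ^ w < p := by
    refine lt_of_le_of_lt ?_ hp5
    apply Nat.pow_le_pow_right (by norm_num)
    nlinarith
  have hlt : 2 ^ (w * (w * u)) < p ^ (2 * (w * u)) := by
    have h1 : (2 ^ w) ^ (2 * (w * u)) < p ^ (2 * (w * u)) :=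
      Nat.pow_lt_pow_left hpw (by omega)
    refine lt_of_le_of_lt ?_ h1
    rw [← pow_mul]
    apply Nat.pow_le_pow_right (by norm_num)
    apply Nat.mul_le_mul_left
    omega
  obtain ⟨b, hb⟩ := hA p (w * (w * u)) (w * u) A hlt
  refine ⟨T, A, b, hT, ?_, hb, hI, ?_⟩
  · intro i z z' hz
    unfold Bad
    rw [ip_congr (hTA i).1 hz, ip_congr (hTA i).2 hz]
  · have hwE : w * u = E * (4096 * E ^ 2 * u) := by rw [hw]; ring
    have hdiv : w * u / E = 4096 * E ^ 2 * u := by
      rw [hwE]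
      exact Nat.mul_div_cancel_left _ hE
    have hle : w * u / E ≤ w * u := Nat.div_le_self _ _
    refine hR p _ (w * u) E (w * u - w * u / E) u (256 * E * u) (1024 * E * u) A hW hE ?_ ?_
    · rw [hw]
      apply le_of_eq
      ring
    · have : w * u - (w * u - w * u / E) = w * u / E := by omega
      rw [this, hdiv, ← hwE]

end Pool.Agent.H25.QD
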